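import Pool.Agent.R597.SP

/-!
# Strongly proper forcing does not preserve winning strategies in the k-Rothberger game

The counterexample is Cohen forcing and the Cantor space of the ground model, see also the file on
the Menger game for `MP_18f314_lc`.
-/

set_option autoImplicit false

namespace Pool.Agent.Results.MP_e0f6ac_lc.KRothbergerNotPreserved

open Pool.Agent.W868 Pool.Agent.W868.GM Pool.Agent.R597 Pool.Agent.Y588

/-- In every transitive model `M` of ZFC there are a notion of forcing that is strongly proper for
stationarily many models and a topological space on which player II has a winning strategy in the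
`k`-Rothberger game, such that player II has no winning strategy in any generic extension. -/
theorem result (M : Set ZFSet.{0}) (hM : IsZFC M) :
    ∃ P Le X τ : ZFSet.{0}, IsForcing M P Le ∧ StrProper M P Le ∧ IsTop M X τ ∧
      KRothbergerII M X τ ∧ (M.Countable → ∃ G, IsGeneric M P Le G) ∧
      ∀ G, IsGeneric M P Le G → ¬ KRothbergerII (ext M G) X τ := by
  obtain ⟨h1, h2, h3, h4⟩ := cohen_facts hM
  exact ⟨Pc, Lc, fnX M (nat 2), Tc M, h1, h2, h3, krothberger_ground hM, h4,
    fun G hG => not_krothberger hM hG⟩

end Pool.Agent.Results.MP_e0f6ac_lc.KRothbergerNotPreserved
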